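import Pool.Agent.H48.RN.Stmts3

/-!
# Project RN, module SY2: the Artin-Schreier symbol in characteristic 2
-/

set_option autoImplicit false
set_option linter.unusedSectionVars false

namespace Pool.RN

open Polynomial

theorem SY2_two {A B : Type*} [Ring A] [Ring B] (f : A →+* B) (h : (2 : A) = 0) : (2 : B) = 0 := by
  rw [← map_ofNat f 2, h, map_zero]

section wp

variable {K : Type} [Field K]

/-- The Artin-Schreier map. -/
def SY2_wp (h2 : (2 : K) = 0) : K →+ K where
  toFun z := z ^ 2 + z
  map_zero' := by simp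
  map_add' a b := by linear_combination (a * b) * h2

theorem SY2_mem (h2 : (2 : K) = 0) (x : K) : x ∈ (SY2_wp h2).range ↔ ∃ z : K, z ^ 2 + z = x :=
  Iff.rfl

theorem SY2_index [Finite K] (h2 : (2 : K) = 0) : (SY2_wp h2).range.index = 2 := by
  have hf : (SY2_wp h2).ker.FiniteIndex := inferInstance
  rw [AddSubgroup.index_range]
  have h1 : ((SY2_wp h2).ker : Set K) = {0, 1} := by
    ext z
    have h3 : z ∈ ((SY2_wp h2).ker : Set K) ↔ z ^ 2 + z = 0 := Iff.rfl
    rw [h3]
    simp only [Set.mem_insert_iff, Set.mem_singleton_iff]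
    constructor
    · intro h
      have h4 : z * (z - 1) = 0 := by linear_combination h - z * h2
      rcases mul_eq_zero.1 h4 with h5 | h5
      · exact Or.inl h5
      · exact Or.inr (sub_eq_zero.1 h5)
    · rintro (rfl | rfl)
      · ring
      · linear_combination h2
  have h3 : Nat.card (SY2_wp h2).ker = ((SY2_wp h2).ker : Set K).ncard := rfl
  rw [h3, h1, Set.ncard_pair zero_ne_one]

open Classical in
/-- The quadratic additive character. -/
noncomputable def SY2_s (x : K) : ℂ := if ∃ z : K, z ^ 2 + z = x then 1 else -1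

theorem SY2_s_or (x : K) : SY2_s x = 1 ∨ SY2_s x = -1 := by
  unfold SY2_s
  split_ifs
  · exact Or.inl rfl
  · exact Or.inr rfl

theorem SY2_s_zero : SY2_s (0 : K) = 1 := by
  unfold SY2_s
  rw [if_pos ⟨0, by simp⟩]

theorem SY2_s_add [Finite K] (h2 : (2 : K) = 0) (x y : K) : SY2_s (x + y) = SY2_s x * SY2_s y := by
  have h1 := AddSubgroup.add_mem_iff_of_index_two (SY2_index h2) (a := x) (b := y)
  rw [SY2_mem, SY2_mem, SY2_mem] at h1
  unfold SY2_s
  by_cases hx : ∃ z : K, z ^ 2 + z = x
  · by_cases hy : ∃ z : K, z ^ 2 + z = y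
    · rw [if_pos hx, if_pos hy, if_pos (h1.2 (by simp only [hx, hy]))]
      norm_num
    · rw [if_pos hx, if_neg hy, if_neg (fun h => hy ((h1.1 h).1 hx))]
      norm_num
  · by_cases hy : ∃ z : K, z ^ 2 + z = y
    · rw [if_neg hx, if_pos hy, if_neg (fun h => hx ((h1.1 h).2 hy))]
      norm_num
    · rw [if_neg hx, if_neg hy, if_pos (h1.2 (by simp only [hx, hy]))]
      norm_num

theorem SY2_s_nsmul [Finite K] (h2 : (2 : K) = 0) (x : K) (m : ℕ) :
    SY2_s ((m : K) * x) = SY2_s x ^ m := by
  induction m with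
  | zero => simp [SY2_s_zero]
  | succ m ih =>
    rw [Nat.cast_succ, add_mul, one_mul, SY2_s_add h2, ih, pow_succ]

end wp

section trace

variable {F K : Type} [Field F] [Fintype F] [Field K] [Finite K] [Algebra F K]

theorem SY2_tr_sq (h2 : (2 : F) = 0) (z : K) :
    Algebra.trace F K (z ^ 2) = Algebra.trace F K z ^ 2 := by
  have hfin : FiniteDimensional F K := Module.Finite.of_finite
  have h3 : (2 : AlgebraicClosure F) = 0 := SY2_two (algebraMap F (AlgebraicClosure F)) h2
  have hch : CharP (AlgebraicClosure F) 2 := CharTwo.of_one_ne_zero_of_two_eq_zero one_ne_zero h3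
  apply (algebraMap F (AlgebraicClosure F)).injective
  rw [map_pow (algebraMap F (AlgebraicClosure F)), trace_eq_sum_embeddings,
    trace_eq_sum_embeddings, sum_pow_char]
  exact Finset.sum_congr rfl fun σ _ => map_pow σ z 2

theorem SY2_tr (h2 : (2 : F) = 0) (y : K) :
    (∃ z : K, z ^ 2 + z = y) ↔ ∃ w : F, w ^ 2 + w = Algebra.trace F K y := by
  have hfin : FiniteDimensional F K := Module.Finite.of_finite
  have h2' : (2 : K) = 0 := SY2_two (algebraMap F K) h2
  have h1 : ∀ y : K, (∃ z : K, z ^ 2 + z = y) → ∃ w : F, w ^ 2 + w = Algebra.trace F K y := by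
    rintro y ⟨z, rfl⟩
    exact ⟨Algebra.trace F K z, by rw [map_add, SY2_tr_sq h2]⟩
  refine ⟨h1 y, fun h => ?_⟩
  by_contra hy
  have h3 : (SY2_wp h2).range ≠ ⊤ := by
    intro h4
    have h5 := SY2_index h2
    rw [h4, AddSubgroup.index_top] at h5
    norm_num at h5
  obtain ⟨c, hc⟩ : ∃ c : F, c ∉ (SY2_wp h2).range := by
    by_contra h4
    push Not at h4
    exact h3 ((AddSubgroup.eq_top_iff' _).2 h4)
  obtain ⟨x, hx⟩ := Algebra.trace_surjective F K c
  have hx' : ¬ ∃ z : K, z ^ 2 + z = x := fun h4 => hc (by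
    rw [SY2_mem, ← hx]
    exact h1 x h4)
  have h4 := AddSubgroup.add_mem_iff_of_index_two (SY2_index h2') (a := y) (b := x)
  rw [SY2_mem, SY2_mem, SY2_mem] at h4
  have h5 := h1 _ (h4.2 (by simp only [hy, hx']))
  rw [map_add, hx] at h5
  have h6 : c ∈ (SY2_wp h2).range := by
    rw [← SY2_mem h2] at h h5
    exact (AddSubgroup.add_mem_cancel_left _ h).1 h5
  exact hc h6

end trace

section dual

variable {K : Type} [Field K]

/-- The logarithmic derivative. -/
noncomputable def SY2_lam (x : DualNumber K) : K := x.snd / x.fst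

theorem SY2_lam_mul {x y : DualNumber K} (hx : x.fst ≠ 0) (hy : y.fst ≠ 0) :
    SY2_lam (x * y) = SY2_lam x + SY2_lam y := by
  unfold SY2_lam
  rw [TrivSqZeroExt.fst_mul, TrivSqZeroExt.snd_mul]
  simp only [smul_eq_mul, MulOpposite.smul_eq_mul_unop, MulOpposite.unop_op]
  field_simp
  ring

theorem SY2_lam_prod (s : Multiset (DualNumber K)) (hs : ∀ x ∈ s, x.fst ≠ 0) :
    s.prod.fst ≠ 0 ∧ SY2_lam s.prod = (s.map SY2_lam).sum := by
  induction s using Multiset.induction_on with
  | empty => simp [SY2_lam]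
  | cons a s ih =>
    have h1 := hs a (Multiset.mem_cons_self _ _)
    have h2 := ih fun x hx => hs x (Multiset.mem_cons_of_mem hx)
    rw [Multiset.prod_cons, Multiset.map_cons, Multiset.sum_cons, SY2_lam_mul h1 h2.1, h2.2,
      TrivSqZeroExt.fst_mul]
    exact ⟨mul_ne_zero h1 h2.1, rfl⟩

/-- The deformed polynomial. -/
noncomputable def SY2_g (D N : K[X]) : (DualNumber K)[X] :=
  D.map (algebraMap K (DualNumber K)) + C DualNumber.eps * N.map (algebraMap K (DualNumber K))

theorem SY2_inj : Function.Injective (algebraMap K (DualNumber K)) :=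
  fun _ _ h => congrArg TrivSqZeroExt.fst h

theorem SY2_g_monic {D N : K[X]} (hD : D.Monic) (hN : N.degree < D.degree) :
    (SY2_g D N).Monic ∧ (SY2_g D N).natDegree = D.natDegree := by
  have h1 : (C (DualNumber.eps : DualNumber K) * N.map (algebraMap K (DualNumber K))).degree
      < (D.map (algebraMap K (DualNumber K))).degree := by
    rw [degree_map_eq_of_injective SY2_inj]
    refine lt_of_le_of_lt ?_ hN
    refine (degree_mul_le _ _).trans ?_
    have h3 : (C (DualNumber.eps : DualNumber K)).degree ≤ 0 := degree_C_le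
    have h4 : (N.map (algebraMap K (DualNumber K))).degree ≤ N.degree := degree_map_le
    calc _ ≤ 0 + N.degree := add_le_add h3 h4
      _ = N.degree := zero_add _
  constructor
  · exact (hD.map _).add_of_left h1
  · unfold SY2_g
    rw [natDegree_add_eq_left_of_degree_lt h1, natDegree_map_eq_of_injective SY2_inj]

theorem SY2_g_sq (h2 : (2 : K) = 0) (D N : K[X]) :
    SY2_g D N * SY2_g D N = (D ^ 2).map (algebraMap K (DualNumber K)) := by
  unfold SY2_g
  have h3 : (C (DualNumber.eps : DualNumber K)) * C DualNumber.eps = 0 := by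
    rw [← C_mul, DualNumber.eps_mul_eps, C_0]
  have h4 : (2 : (DualNumber K)[X]) = 0 :=
    SY2_two ((C : DualNumber K →+* (DualNumber K)[X]).comp (algebraMap K (DualNumber K))) h2
  rw [Polynomial.map_pow]
  linear_combination (D.map (algebraMap K (DualNumber K)) * C DualNumber.eps *
    N.map (algebraMap K (DualNumber K))) * h4 +
    (N.map (algebraMap K (DualNumber K))) ^ 2 * h3

/-- The resultant with the deformed polynomial. -/
noncomputable def SY2_T (D N f : K[X]) : DualNumber K :=
  resultant (f.map (algebraMap K (DualNumber K))) (SY2_g D N) f.natDegree D.natDegree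

theorem SY2_neg (h2 : (2 : K) = 0) : (-1 : DualNumber K) = 1 := by
  have h6 : (2 : DualNumber K) = 0 := SY2_two (algebraMap K (DualNumber K)) h2
  linear_combination (-1 : DualNumber K) * h6

theorem SY2_T_le (h2 : (2 : K) = 0) {D N : K[X]} (hD : D.Monic) (hN : N.degree < D.degree)
    (f : K[X]) (m : ℕ) (hm : f.natDegree ≤ m) :
    resultant (f.map (algebraMap K (DualNumber K))) (SY2_g D N) m D.natDegree = SY2_T D N f := by
  obtain ⟨k, rfl⟩ := Nat.exists_eq_add_of_le hm
  have h1 := SY2_g_monic hD hN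
  have h3 : (SY2_g D N).coeff D.natDegree = 1 := by
    rw [← h1.2]
    exact h1.1
  rw [resultant_add_left_deg _ _ _ _ _ natDegree_map_le, SY2_neg h2, h3, one_pow, one_pow, one_mul,
    one_mul]
  rfl

theorem SY2_T_mul (h2 : (2 : K) = 0) {D N : K[X]} (hD : D.Monic) (hN : N.degree < D.degree)
    (f h : K[X]) : SY2_T D N (f * h) = SY2_T D N f * SY2_T D N h := by
  have h1 := SY2_g_monic hD hN
  rw [← SY2_T_le h2 hD hN (f * h) (f.natDegree + h.natDegree) natDegree_mul_le, Polynomial.map_mul]
  have h3 := resultant_mul_left (f.map (algebraMap K (DualNumber K)))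
    (h.map (algebraMap K (DualNumber K))) (SY2_g D N) D.natDegree h1.2.le
  rw [natDegree_map_eq_of_injective SY2_inj, natDegree_map_eq_of_injective SY2_inj] at h3
  exact h3

theorem SY2_T_congr (h2 : (2 : K) = 0) {D N : K[X]} (hD : D.Monic) (hN : N.degree < D.degree)
    (f h : K[X]) (hd : D ^ 2 ∣ f - h) : SY2_T D N f = SY2_T D N h := by
  have h1 := SY2_g_monic hD hN
  obtain ⟨p, hp⟩ := hd
  let a := algebraMap K (DualNumber K)
  let q := SY2_g D N * p.map a
  have h3 : f.map a = h.map a + SY2_g D N * q := by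
    have h4 : f = h + D ^ 2 * p := by rw [← hp]; ring
    rw [h4, Polynomial.map_add, Polynomial.map_mul, ← SY2_g_sq h2 D N, mul_assoc]
  let m := f.natDegree + h.natDegree + (q.natDegree + D.natDegree)
  rw [← SY2_T_le h2 hD hN f m (by omega), ← SY2_T_le h2 hD hN h m (by omega)]
  change resultant (f.map a) _ _ _ = _
  rw [h3]
  exact resultant_add_mul_left _ _ _ _ _ (by omega) h1.2.le

theorem SY2_T_one (D N : K[X]) : SY2_T D N 1 = 1 := by
  unfold SY2_T
  simp

theorem SY2_eval (D N : K[X]) (x : K) :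
    (eval (algebraMap K (DualNumber K) x) (SY2_g D N)).fst = D.eval x ∧
    (eval (algebraMap K (DualNumber K) x) (SY2_g D N)).snd = N.eval x := by
  unfold SY2_g
  rw [eval_add, eval_mul, eval_C, eval_map, eval_map, eval₂_at_apply, eval₂_at_apply]
  constructor
  · rw [TrivSqZeroExt.fst_add, TrivSqZeroExt.fst_mul, DualNumber.fst_eps, zero_mul, add_zero]
    rfl
  · rw [TrivSqZeroExt.snd_add, TrivSqZeroExt.snd_mul, DualNumber.snd_eps]
    have h1 : (algebraMap K (DualNumber K) (D.eval x)).snd = 0 := rfl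
    have h3 : (algebraMap K (DualNumber K) (N.eval x)).snd = 0 := rfl
    have h4 : (algebraMap K (DualNumber K) (N.eval x)).fst = N.eval x := rfl
    rw [h1, h3, h4]
    simp

theorem SY2_T_prod (h2 : (2 : K) = 0) {D N : K[X]} (hD : D.Monic) (hN : N.degree < D.degree)
    (s : Multiset K) : SY2_T D N ((s.map fun x => X - C x).prod)
      = (s.map fun x => eval (algebraMap K (DualNumber K) x) (SY2_g D N)).prod := by
  induction s using Multiset.induction_on with
  | empty => simp [SY2_T_one]
  | cons x s ih =>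
    rw [Multiset.map_cons, Multiset.prod_cons, SY2_T_mul h2 hD hN, ih, Multiset.map_cons,
      Multiset.prod_cons]
    congr 1
    unfold SY2_T
    rw [natDegree_X_sub_C, Polynomial.map_sub, map_X, map_C]
    exact resultant_X_sub_C_left _ _ _ (SY2_g_monic hD hN).2.le

theorem SY2_T_roots (h2 : (2 : K) = 0) {D N : K[X]} (hD : D.Monic) (hN : N.degree < D.degree)
    (s : Multiset K) (hs : ∀ x ∈ s, D.eval x ≠ 0) :
    (SY2_T D N ((s.map fun x => X - C x).prod)).fst ≠ 0 ∧
    SY2_lam (SY2_T D N ((s.map fun x => X - C x).prod))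
      = (s.map fun x => N.eval x / D.eval x).sum := by
  have h1 := SY2_lam_prod (s.map fun x => eval (algebraMap K (DualNumber K) x) (SY2_g D N)) (by
    intro y hy
    obtain ⟨x, hx, rfl⟩ := Multiset.mem_map.1 hy
    rw [(SY2_eval D N x).1]
    exact hs x hx)
  rw [SY2_T_prod h2 hD hN, h1.2, Multiset.map_map]
  refine ⟨h1.1, ?_⟩
  congr 1
  refine Multiset.map_congr rfl fun x _ => ?_
  rw [Function.comp_apply, SY2_lam, (SY2_eval D N x).1, (SY2_eval D N x).2]

end dual

section base

variable {K L : Type} [Field K] [Field L] [Algebra K L]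

variable (K L) in
/-- Base change of the dual numbers. -/
noncomputable def SY2_j : DualNumber K →+* DualNumber L where
  toFun x := (algebraMap K L x.fst, algebraMap K L x.snd)
  map_one' := TrivSqZeroExt.ext (map_one _) (map_zero _)
  map_zero' := TrivSqZeroExt.ext (map_zero _) (map_zero _)
  map_add' x y := TrivSqZeroExt.ext (map_add _ _ _) (map_add _ _ _)
  map_mul' x y := by
    refine TrivSqZeroExt.ext (map_mul _ _ _) ?_
    rw [TrivSqZeroExt.snd_mul]
    change algebraMap K L (x * y).snd = algebraMap K L x.fst • algebraMap K L y.snd +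
      MulOpposite.op (algebraMap K L y.fst) • algebraMap K L x.snd
    rw [TrivSqZeroExt.snd_mul]
    simp only [smul_eq_mul, MulOpposite.smul_eq_mul_unop, MulOpposite.unop_op, map_add, map_mul]

theorem SY2_j_fst (x : DualNumber K) : (SY2_j K L x).fst = algebraMap K L x.fst := rfl

theorem SY2_j_snd (x : DualNumber K) : (SY2_j K L x).snd = algebraMap K L x.snd := rfl

theorem SY2_j_lam (x : DualNumber K) : SY2_lam (SY2_j K L x) = algebraMap K L (SY2_lam x) := by
  unfold SY2_lam
  rw [SY2_j_fst, SY2_j_snd, map_div₀]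

theorem SY2_j_comp : (SY2_j K L).comp (algebraMap K (DualNumber K))
    = (algebraMap L (DualNumber L)).comp (algebraMap K L) := by
  ext x
  · rw [RingHom.comp_apply, SY2_j_fst]
    rfl
  · rw [RingHom.comp_apply, SY2_j_snd]
    exact map_zero _

theorem SY2_j_eps : SY2_j K L DualNumber.eps = DualNumber.eps := by
  ext
  · rw [SY2_j_fst, DualNumber.fst_eps, DualNumber.fst_eps, map_zero]
  · rw [SY2_j_snd, DualNumber.snd_eps, DualNumber.snd_eps, map_one]

theorem SY2_g_map (D N : K[X]) :
    (SY2_g D N).map (SY2_j K L) = SY2_g (D.map (algebraMap K L)) (N.map (algebraMap K L)) := by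
  unfold SY2_g
  rw [Polynomial.map_add, Polynomial.map_mul, map_C, SY2_j_eps, Polynomial.map_map,
    Polynomial.map_map, SY2_j_comp, Polynomial.map_map, Polynomial.map_map]

theorem SY2_T_map (D N f : K[X]) : SY2_j K L (SY2_T D N f)
    = SY2_T (D.map (algebraMap K L)) (N.map (algebraMap K L)) (f.map (algebraMap K L)) := by
  unfold SY2_T
  rw [← resultant_map_map, SY2_g_map, Polynomial.map_map, SY2_j_comp, ← Polynomial.map_map,
    natDegree_map, natDegree_map]

end base

section root

variable {F : Type} [Field F] [Fintype F]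

theorem SY2_trace_root (P : F[X]) (hP : P.Monic) [hirr : Fact (Irreducible P)] (D N : F[X]) :
    algebraMap F (AlgebraicClosure F)
      (Algebra.trace F (AdjoinRoot P) (AdjoinRoot.mk P N / AdjoinRoot.mk P D))
      = ((P.map (algebraMap F (AlgebraicClosure F))).roots.map fun x =>
          (N.map (algebraMap F (AlgebraicClosure F))).eval x /
          (D.map (algebraMap F (AlgebraicClosure F))).eval x).sum := by
  classical
  let Ω := AlgebraicClosure F
  let pb := AdjoinRoot.powerBasis hP.ne_zero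
  have hfd : FiniteDimensional F (AdjoinRoot P) := pb.finite
  have hmin : minpoly F pb.gen = P := AdjoinRoot.minpoly_powerBasis_gen_of_monic hP
  have h1 : ∀ σ : AdjoinRoot P →ₐ[F] Ω, ∀ f : F[X], σ (AdjoinRoot.mk P f)
      = (f.map (algebraMap F Ω)).eval (σ pb.gen) := by
    intro σ f
    rw [eval_map_algebraMap, ← AdjoinRoot.aeval_eq, AdjoinRoot.powerBasis_gen, aeval_algHom_apply]
  have hsep : (P.map (algebraMap F Ω)).roots.Nodup := by
    refine nodup_roots ((separable_map _).mpr ?_)
    exact PerfectField.separable_of_irreducible hirr.out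
  rw [trace_eq_sum_embeddings (AlgebraicClosure F)]
  have h3 : ∀ σ : AdjoinRoot P →ₐ[F] Ω, σ (AdjoinRoot.mk P N / AdjoinRoot.mk P D)
      = (N.map (algebraMap F Ω)).eval (σ pb.gen) / (D.map (algebraMap F Ω)).eval (σ pb.gen) := by
    intro σ
    rw [map_div₀, h1, h1]
  rw [Finset.sum_congr rfl fun σ _ => h3 σ]
  let G : Ω → Ω := fun x => (N.map (algebraMap F Ω)).eval x / (D.map (algebraMap F Ω)).eval x
  change ∑ σ : AdjoinRoot P →ₐ[F] Ω, G (σ pb.gen) = ((P.map (algebraMap F Ω)).roots.map G).sum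
  have h4 : ∑ σ : AdjoinRoot P →ₐ[F] Ω, G (σ pb.gen)
      = ∑ y : { y : Ω // y ∈ (minpoly F pb.gen).aroots Ω }, G y :=
    Fintype.sum_equiv pb.liftEquiv' _ _ fun σ => by rw [PowerBasis.liftEquiv'_apply_coe]
  rw [h4, Finset.sum_mem_multiset (m := (minpoly F pb.gen).aroots Ω) _ G fun _ => rfl,
    Finset.sum_eq_multiset_sum, Multiset.toFinset_val, Multiset.dedup_eq_self.mpr, hmin]
  rw [hmin]
  exact hsep

theorem SY2_lam_T (h2 : (2 : F) = 0) {D N : F[X]} (hD : D.Monic) (hN : N.degree < D.degree)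
    (P : F[X]) (hP : P.Monic) [hirr : Fact (Irreducible P)] (hPD : AdjoinRoot.mk P D ≠ 0) :
    SY2_lam (SY2_T D N P)
      = Algebra.trace F (AdjoinRoot P) (AdjoinRoot.mk P N / AdjoinRoot.mk P D) := by
  apply (algebraMap F (AlgebraicClosure F)).injective
  rw [SY2_trace_root P hP D N, ← SY2_j_lam, SY2_T_map]
  have h3 : P.map (algebraMap F (AlgebraicClosure F))
      = ((P.map (algebraMap F (AlgebraicClosure F))).roots.map fun x => X - C x).prod :=
    (IsAlgClosed.splits (P.map (algebraMap F (AlgebraicClosure F)))).eq_prod_roots_of_monic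
      (hP.map _)
  have h4 := (SY2_T_roots (SY2_two (algebraMap F (AlgebraicClosure F)) h2)
    (hD.map (algebraMap F (AlgebraicClosure F))) (N := N.map (algebraMap F (AlgebraicClosure F)))
    (by rwa [degree_map, degree_map]) (P.map (algebraMap F (AlgebraicClosure F))).roots (by
      intro x hx h5
      rw [mem_roots (hP.map _).ne_zero, IsRoot.def] at hx
      have h6 : IsCoprime P D := (hirr.out.coprime_iff_not_dvd).2 fun h7 =>
        hPD (AdjoinRoot.mk_eq_zero.2 h7)
      obtain ⟨a, b, hab⟩ := h6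
      have h7 := congrArg (fun f : F[X] => (f.map (algebraMap F (AlgebraicClosure F))).eval x) hab
      simp only [Polynomial.map_add, Polynomial.map_mul, eval_add, eval_mul, hx, h5, mul_zero,
        add_zero, Polynomial.map_one, eval_one] at h7
      exact zero_ne_one h7)).2
  rw [← h3] at h4
  exact h4

end root

/-- SY2: the Artin-Schreier symbol. -/
theorem s_SY2 (F : Type) [Field F] [Fintype F] : S_SY2 F := by
  classical
  intro h2 D N M hD0 hM hM1 hdvd hdeg
  let u := D.leadingCoeff
  have hu : u ≠ 0 := leadingCoeff_ne_zero.2 hD0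
  let D' := C u⁻¹ * D
  let c := u⁻¹ * N.coeff D.natDegree
  let N' := C u⁻¹ * N - C c * D'
  have hD' : D'.Monic := monic_C_mul_of_mul_leadingCoeff_eq_one (inv_mul_cancel₀ hu)
  have hdD : D'.natDegree = D.natDegree := natDegree_C_mul (inv_ne_zero hu)
  have hN' : N'.degree < D'.degree := by
    rw [degree_eq_natDegree hD'.ne_zero, degree_lt_iff_coeff_zero]
    intro m hm
    rcases hm.eq_or_lt with rfl | hm
    · simp only [N', coeff_sub, coeff_C_mul]
      have h3 : D'.coeff D'.natDegree = 1 := hD'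
      rw [h3, hdD]
      simp [c]
    · simp only [N', coeff_sub, coeff_C_mul]
      rw [coeff_eq_zero_of_natDegree_lt hm, coeff_eq_zero_of_natDegree_lt (by omega)]
      ring
  have hDM : D' ^ 2 ∣ M := by
    have h3 : D' ^ 2 = C (u⁻¹ ^ 2) * D ^ 2 := by simp only [D', mul_pow, C_pow]
    rw [h3]
    have h4 : IsUnit (C (u⁻¹ ^ 2) : F[X]) := isUnit_C.2 (pow_ne_zero 2 (inv_ne_zero hu)).isUnit
    exact h4.mul_left_dvd.2 hdvd
  let T : F[X] → DualNumber F := SY2_T D' N'
  have hT1 : T 1 = 1 := SY2_T_one D' N'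
  have hTm : ∀ f h, T (f * h) = T f * T h := SY2_T_mul h2 hD' hN'
  have hTc : ∀ f h, AdjoinRoot.mk M f = AdjoinRoot.mk M h → T f = T h := fun f h h3 =>
    SY2_T_congr h2 hD' hN' f h (hDM.trans (AdjoinRoot.mk_eq_mk.1 h3))
  let rep : AdjoinRoot M → F[X] := Function.surjInv AdjoinRoot.mk_surjective
  have hrep : ∀ a, AdjoinRoot.mk M (rep a) = a := Function.surjInv_eq _
  have hTu : ∀ f, IsUnit (AdjoinRoot.mk M f) → (T f).fst ≠ 0 := by
    intro f hf h3
    obtain ⟨b, hb⟩ := hf.exists_right_inv
    have h4 : T (f * rep b) = 1 := by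
      rw [← hT1]
      apply hTc
      rw [map_mul, hrep, hb, map_one]
    rw [hTm] at h4
    have h5 := congrArg TrivSqZeroExt.fst h4
    rw [TrivSqZeroExt.fst_mul, h3, zero_mul, TrivSqZeroExt.fst_one] at h5
    exact zero_ne_one h5
  have hTr : ∀ a b, T (rep (a * b)) = T (rep a) * T (rep b) := by
    intro a b
    rw [← hTm]
    apply hTc
    rw [hrep, map_mul, hrep, hrep]
  let χ₀ : MulChar (AdjoinRoot M) ℂ :=
    { toFun := fun a => if IsUnit a then SY2_s (SY2_lam (T (rep a))) else 0
      map_one' := by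
        have h3 : T (rep 1) = 1 := by
          rw [← hT1]
          apply hTc
          rw [hrep, map_one]
        rw [if_pos isUnit_one, h3]
        simp [SY2_lam, SY2_s_zero]
      map_mul' := by
        intro a b
        by_cases ha : IsUnit a
        · by_cases hb : IsUnit b
          · have h3 := hTu (rep a) (by rwa [hrep])
            have h4 := hTu (rep b) (by rwa [hrep])
            rw [if_pos ha, if_pos hb, if_pos (ha.mul hb), hTr, SY2_lam_mul h3 h4, SY2_s_add h2]
          · rw [if_neg hb, if_neg (fun h => hb (isUnit_of_mul_isUnit_right h)), mul_zero]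
        · rw [if_neg ha, if_neg (fun h => ha (isUnit_of_mul_isUnit_left h)), zero_mul]
      map_nonunit' := fun a ha => if_neg ha }
  have hχ : ∀ a, IsUnit a → χ₀ a = SY2_s (SY2_lam (T (rep a))) := fun a ha => if_pos ha
  refine ⟨χ₀, SY2_s c, fun a ha => ?_, SY2_s_or c, ?_⟩
  · rw [hχ a ha]
    exact SY2_s_or _
  intro P hP hirr hPM
  have hfact : Fact (Irreducible P) := ⟨hirr⟩
  have hPD : ¬ P ∣ D := fun h => hPM ((h.trans (dvd_pow_self D two_ne_zero)).trans hdvd)
  have hD1 : AdjoinRoot.mk P D ≠ 0 := fun h => hPD (AdjoinRoot.mk_eq_zero.1 h)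
  have hD'e : AdjoinRoot.mk P D' = algebraMap F (AdjoinRoot P) u⁻¹ * AdjoinRoot.mk P D := by
    simp only [D', map_mul, AdjoinRoot.mk_C, AdjoinRoot.algebraMap_eq]
  have hu' : algebraMap F (AdjoinRoot P) u⁻¹ ≠ 0 := by
    rw [Ne, map_eq_zero]
    exact inv_ne_zero hu
  have hD2 : AdjoinRoot.mk P D' ≠ 0 := by
    rw [hD'e]
    exact mul_ne_zero hu' hD1
  have hN'e : AdjoinRoot.mk P N' = algebraMap F (AdjoinRoot P) u⁻¹ * AdjoinRoot.mk P N
      - algebraMap F (AdjoinRoot P) c * AdjoinRoot.mk P D' := by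
    simp only [N', map_sub, map_mul, AdjoinRoot.mk_C, AdjoinRoot.algebraMap_eq]
  have hy : AdjoinRoot.mk P N / AdjoinRoot.mk P D
      = algebraMap F (AdjoinRoot P) c + AdjoinRoot.mk P N' / AdjoinRoot.mk P D' := by
    rw [hN'e, sub_div, mul_div_assoc (algebraMap F (AdjoinRoot P) c), div_self hD2, hD'e,
      mul_div_mul_left _ _ hu']
    ring
  have hfd : FiniteDimensional F (AdjoinRoot P) := (AdjoinRoot.powerBasis hP.ne_zero).finite
  have hfin : Finite (AdjoinRoot P) := Module.finite_of_finite F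
  have htr : Algebra.trace F (AdjoinRoot P) (AdjoinRoot.mk P N / AdjoinRoot.mk P D)
      = (P.natDegree : F) * c + SY2_lam (T P) := by
    have h3 : SY2_lam (T P) = _ := SY2_lam_T h2 hD' hN' P hP hD2
    rw [h3, hy, map_add, Algebra.trace_algebraMap,
      (AdjoinRoot.powerBasis hP.ne_zero).finrank, AdjoinRoot.powerBasis_dim, nsmul_eq_mul]
  have hcc : cc χ₀ (SY2_s c) P
      = SY2_s (Algebra.trace F (AdjoinRoot P) (AdjoinRoot.mk P N / AdjoinRoot.mk P D)) := by
    have hPu : IsUnit (AdjoinRoot.mk M P) := by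
      obtain ⟨a, b, hab⟩ := (hirr.coprime_iff_not_dvd).2 hPM
      refine IsUnit.of_mul_eq_one (AdjoinRoot.mk M a) ?_
      have h3 := congrArg (AdjoinRoot.mk M) hab
      rw [map_add, map_mul, map_mul, AdjoinRoot.mk_self, mul_zero, add_zero, map_one] at h3
      rw [mul_comm]
      exact h3
    unfold cc dir
    rw [hχ _ hPu, htr, SY2_s_add h2, SY2_s_nsmul h2, hTc (rep (AdjoinRoot.mk M P)) P (hrep _)]
  have hiff : (∃ z, (z ^ 2 + z) * AdjoinRoot.mk P D = AdjoinRoot.mk P N) ↔
      ∃ w : F, w ^ 2 + w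
        = Algebra.trace F (AdjoinRoot P) (AdjoinRoot.mk P N / AdjoinRoot.mk P D) := by
    rw [← SY2_tr h2]
    refine exists_congr fun z => ?_
    rw [eq_div_iff hD1]
  rw [hcc, hiff]
  unfold SY2_s
  exact ⟨fun h => if_pos h, fun h => if_neg h⟩

end Pool.RN
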